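import Pool.Agent.Y229.MS.Stm

set_option autoImplicit false

/-!
# Project MS, the statements EXT, BC and ITR: automorphisms of polynomial rings
-/

namespace Pool.Agent.Y405.MS

open MvPolynomial Pool.Agent.Y229.MS

section ext

variable {K : Type} [Field K] {a b c : ℕ}

/-- extension by two variables -/
noncomputable def extH (φ : MvPolynomial (Fin a) K →ₐ[K] MvPolynomial (Fin b) K) :
    MvPolynomial (Fin (a + 2)) K →ₐ[K] MvPolynomial (Fin (b + 2)) K :=
  aeval (Fin.addCases (fun i => rename (Fin.castAdd 2) (φ (X i))) fun j => X (Fin.natAdd b j))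

lemma extH_X1 (φ : MvPolynomial (Fin a) K →ₐ[K] MvPolynomial (Fin b) K) (i : Fin a) :
    extH φ (X (Fin.castAdd 2 i)) = rename (Fin.castAdd 2) (φ (X i)) := by
  unfold extH
  rw [aeval_X, Fin.addCases_left]

lemma extH_X2 (φ : MvPolynomial (Fin a) K →ₐ[K] MvPolynomial (Fin b) K) (j : Fin 2) :
    extH φ (X (Fin.natAdd a j)) = X (Fin.natAdd b j) := by
  unfold extH
  rw [aeval_X, Fin.addCases_right]

lemma extH_rename (φ : MvPolynomial (Fin a) K →ₐ[K] MvPolynomial (Fin b) K)
    (g : MvPolynomial (Fin a) K) :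
    extH φ (rename (Fin.castAdd 2) g) = rename (Fin.castAdd 2) (φ g) := by
  have h : (extH φ).comp (rename (Fin.castAdd 2)) = (rename (Fin.castAdd 2)).comp φ := by
    apply MvPolynomial.algHom_ext
    intro i
    rw [AlgHom.comp_apply, AlgHom.comp_apply, rename_X, extH_X1]
  exact DFunLike.congr_fun h g

lemma extH_comp (φ : MvPolynomial (Fin a) K →ₐ[K] MvPolynomial (Fin b) K)
    (φ' : MvPolynomial (Fin b) K →ₐ[K] MvPolynomial (Fin a) K) (h : ∀ g, φ' (φ g) = g) :
    (extH φ').comp (extH φ) = AlgHom.id K _ := by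
  apply MvPolynomial.algHom_ext
  intro i
  rw [AlgHom.comp_apply, AlgHom.id_apply]
  refine Fin.addCases (fun i => ?_) (fun j => ?_) i
  · rw [extH_X1, extH_rename, h, rename_X]
  · rw [extH_X2, extH_X2]

end ext

theorem ext : TaskEXT := by
  intro K _ a b ψ
  refine ⟨AlgEquiv.ofAlgHom (extH ψ.toAlgHom) (extH ψ.symm.toAlgHom)
    (extH_comp _ _ fun g => ψ.apply_symm_apply g) (extH_comp _ _ fun g => ψ.symm_apply_apply g),
    fun f => ?_⟩
  show extH ψ.toAlgHom (addyz f) = addyz (ψ f)
  unfold addyz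
  rw [map_add, map_mul, extH_rename, extH_X2, extH_X2]
  rfl

section bc

variable {k K : Type} [Field k] [Field K] [Algebra k K] {a b : ℕ}

/-- extension of the field -/
noncomputable def bcH (φ : MvPolynomial (Fin a) k →ₐ[k] MvPolynomial (Fin b) k) :
    MvPolynomial (Fin a) K →ₐ[K] MvPolynomial (Fin b) K :=
  aeval fun i => map (algebraMap k K) (φ (X i))

lemma bcH_map (φ : MvPolynomial (Fin a) k →ₐ[k] MvPolynomial (Fin b) k)
    (g : MvPolynomial (Fin a) k) :
    bcH (K := K) φ (map (algebraMap k K) g) = map (algebraMap k K) (φ g) := by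
  have h : (bcH (K := K) φ : MvPolynomial (Fin a) K →+* MvPolynomial (Fin b) K).comp
      (map (algebraMap k K)) = (map (algebraMap k K)).comp
        (φ : MvPolynomial (Fin a) k →+* MvPolynomial (Fin b) k) := by
    apply MvPolynomial.ringHom_ext
    · intro r
      rw [RingHom.comp_apply, RingHom.comp_apply, map_C]
      have h1 : (φ : MvPolynomial (Fin a) k →+* MvPolynomial (Fin b) k) (C r) = C r := φ.commutes r
      rw [h1, map_C]
      exact (bcH (K := K) φ).commutes _
    · intro i
      rw [RingHom.comp_apply, RingHom.comp_apply, map_X]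
      show bcH (K := K) φ (X i) = map (algebraMap k K) (φ (X i))
      unfold bcH
      rw [aeval_X]
  exact DFunLike.congr_fun h g

lemma bcH_comp (φ : MvPolynomial (Fin a) k →ₐ[k] MvPolynomial (Fin b) k)
    (φ' : MvPolynomial (Fin b) k →ₐ[k] MvPolynomial (Fin a) k) (h : ∀ g, φ' (φ g) = g) :
    (bcH (K := K) φ').comp (bcH (K := K) φ) = AlgHom.id K _ := by
  apply MvPolynomial.algHom_ext
  intro i
  rw [AlgHom.comp_apply, AlgHom.id_apply]
  have h1 : bcH (K := K) φ (X i) = map (algebraMap k K) (φ (X i)) := by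
    unfold bcH
    rw [aeval_X]
  rw [h1, bcH_map, h, map_X]

end bc

theorem bc : TaskBC := by
  intro k K _ _ _ a b ψ
  exact ⟨AlgEquiv.ofAlgHom (bcH ψ.toAlgHom) (bcH ψ.symm.toAlgHom)
    (bcH_comp _ _ fun g => ψ.apply_symm_apply g) (bcH_comp _ _ fun g => ψ.symm_apply_apply g),
    fun f => bcH_map ψ.toAlgHom f⟩

section itr

variable {K : Type} [Field K] {n : ℕ}

lemma itr_aux (f : MvPolynomial (Fin n) K) (κ : ℕ) :
    ∃ g : Fin (n + 2 * κ) → Fin n ⊕ (Fin κ ⊕ Fin κ), Function.Injective g ∧
      rename g (itr f κ) = rename Sum.inl f +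
        ∑ i : Fin κ, X (Sum.inr (Sum.inl i)) * X (Sum.inr (Sum.inr i)) := by
  induction κ with
  | zero =>
    refine ⟨fun i => Sum.inl i, Sum.inl_injective, ?_⟩
    rw [Finset.univ_eq_empty, Finset.sum_empty, add_zero]
    rfl
  | succ κ ih =>
    obtain ⟨g, hg, hr⟩ := ih
    let s : Fin n ⊕ (Fin κ ⊕ Fin κ) → Fin n ⊕ (Fin (κ + 1) ⊕ Fin (κ + 1)) :=
      Sum.map id (Sum.map Fin.castSucc Fin.castSucc)
    have hs : Function.Injective s :=
      Function.injective_id.sumMap ((Fin.castSucc_injective _).sumMap (Fin.castSucc_injective _))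
    have hs1 : ∀ x, s x ≠ Sum.inr (Sum.inl (Fin.last κ)) := by
      rintro (x | x | x) h
      · simp [s] at h
      · simp only [s, Sum.map_inr, Sum.map_inl, Sum.inr.injEq, Sum.inl.injEq] at h
        exact (Fin.castSucc_lt_last x).ne h
      · simp [s] at h
    have hs2 : ∀ x, s x ≠ Sum.inr (Sum.inr (Fin.last κ)) := by
      rintro (x | x | x) h
      · simp [s] at h
      · simp [s] at h
      · simp only [s, Sum.map_inr, Sum.inr.injEq] at h
        exact (Fin.castSucc_lt_last x).ne h
    let t : Fin 2 → Fin n ⊕ (Fin (κ + 1) ⊕ Fin (κ + 1)) := fun j =>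
      if j = 0 then Sum.inr (Sum.inl (Fin.last κ)) else Sum.inr (Sum.inr (Fin.last κ))
    have ht0 : t 0 = Sum.inr (Sum.inl (Fin.last κ)) := rfl
    have ht1 : t 1 = Sum.inr (Sum.inr (Fin.last κ)) := rfl
    have hst : ∀ x j, s x ≠ t j := by
      intro x j
      fin_cases j
      · exact hs1 x
      · exact hs2 x
    have ht : Function.Injective t := by
      intro i j h
      fin_cases i <;> fin_cases j
      · rfl
      · simp [t] at h
      · simp [t] at h
      · rfl
    let g' : Fin ((n + 2 * κ) + 2) → Fin n ⊕ (Fin (κ + 1) ⊕ Fin (κ + 1)) :=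
      Fin.addCases (fun i => s (g i)) t
    have hg1 : ∀ i, g' (Fin.castAdd 2 i) = s (g i) := fun i => Fin.addCases_left i
    have hg2 : ∀ j, g' (Fin.natAdd _ j) = t j := fun j => Fin.addCases_right j
    have hg' : Function.Injective g' := by
      intro x y
      refine Fin.addCases (fun i => ?_) (fun i => ?_) x
      · refine Fin.addCases (fun j => ?_) (fun j => ?_) y
        · rw [hg1, hg1]
          intro h
          rw [hg (hs h)]
        · rw [hg1, hg2]
          intro h
          exact absurd h (hst _ _)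
      · refine Fin.addCases (fun j => ?_) (fun j => ?_) y
        · rw [hg1, hg2]
          intro h
          exact absurd h.symm (hst _ _)
        · rw [hg2, hg2]
          intro h
          rw [ht h]
    refine ⟨g', hg', ?_⟩
    have h1 : (itr f (κ + 1) : MvPolynomial (Fin ((n + 2 * κ) + 2)) K) = addyz (itr f κ) := rfl
    have h2 : rename g' (addyz (itr f κ)) = rename s (rename g (itr f κ)) +
        X (Sum.inr (Sum.inl (Fin.last κ))) * X (Sum.inr (Sum.inr (Fin.last κ))) := by
      unfold addyz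
      have h3 : g' ∘ Fin.castAdd 2 = s ∘ g := funext hg1
      rw [map_add, map_mul, rename_X, rename_X, hg2, hg2, ht0, ht1, rename_rename, rename_rename,
        h3]
    refine h2.trans ?_
    rw [hr, map_add, rename_rename, map_sum, Fin.sum_univ_castSucc, ← add_assoc]
    congr 1
    congr 1
    refine Finset.sum_congr rfl fun i _ => ?_
    rw [map_mul, rename_X, rename_X]
    rfl

end itr

theorem itr : TaskITR := by
  intro K _ n f κ
  obtain ⟨g, hg, hr⟩ := itr_aux f κ
  let h : Fin n ⊕ (Fin κ ⊕ Fin κ) ≃ Fin (n + (κ + κ)) :=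
    (Equiv.sumCongr (Equiv.refl _) finSumFinEquiv).trans finSumFinEquiv
  have hb : Function.Bijective (h ∘ g) := by
    rw [Fintype.bijective_iff_injective_and_card]
    refine ⟨h.injective.comp hg, ?_⟩
    rw [Fintype.card_fin, Fintype.card_fin]
    omega
  refine ⟨renameEquiv K (Equiv.ofBijective _ hb), ?_⟩
  show rename (h ∘ g) (Pool.Agent.Y229.MS.itr f κ) = _
  rw [← rename_rename, hr, map_add, rename_rename, map_sum]
  unfold stabK
  congr 1
  refine Finset.sum_congr rfl fun i _ => ?_
  rw [map_mul, rename_X, rename_X]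
  rfl

end Pool.Agent.Y405.MS
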